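import Pool.Agent.Q161.EvDet3

/-!
# MP_02f487_co: a determinant of events built from random tuples of subsets

The set `[k]` is `Fin (m+1)` (`k = m + 1`, the element `i` of `[k]` is `i - 1 : Fin (m+1)`), its
last element `k` is `Fin.last m` and `[k-1]` is `Fin m`, embedded by `Fin.castSucc`. Indices are
read cyclically (subtraction in `Fin (m+1)` is modulo `k`).
-/

namespace Pool.Agent.Results.MP_02f487_co.DeterminantOfEvents

open Finset Pool.Agent.Q161.EvDet

variable {m r : ℕ}

/-- `𝒮_{p,r}`: the `r`-tuples of subsets of `[k]` in which each `i` lies in exactly `p_i` sets. -/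
def calS (m r : ℕ) (p : Fin (m + 1) → ℕ) : Finset (Fin r → Finset (Fin (m + 1))) :=
  univ.filter (fun S => ∀ i, (univ.filter (fun t => i ∈ S t)).card = p i)

/-- `𝓜_{p,r}`: the tuples of `𝒮_{p,r}` in which no set is `[k]`. -/
def calM (m r : ℕ) (p : Fin (m + 1) → ℕ) : Finset (Fin r → Finset (Fin (m + 1))) :=
  (calS m r p).filter (fun S => ∀ t, S t ≠ univ)

/-- Sample points: a tuple of subsets and a map `[k-1] → [r]`. -/
abbrev Pt (m r : ℕ) : Type := (Fin r → Finset (Fin (m + 1))) × (Fin m → Fin r)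

open Classical in
/-- `Ω`: the pairs `(S, f)` with `S ∈ 𝒮_{p,r}` and `f` surjective. -/
noncomputable def Om (p : Fin (m + 1) → ℕ) : Finset (Pt m r) :=
  (calS m r p) ×ˢ (univ.filter (fun f : Fin m → Fin r => Function.Surjective f))

open Classical in
/-- The uniform probability on `Ω`. -/
noncomputable def Pr (p : Fin (m + 1) → ℕ) (E : Set (Pt m r)) : ℚ :=
  (((Om (r := r) p).filter (fun ω => ω ∈ E)).card : ℚ) / ((Om (r := r) p).card : ℚ)

/-- The cyclic interval `]i,j] = {i+1, …, j}`, empty for `i = j`. -/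
def Ioc' (i j : Fin (m + 1)) : Finset (Fin (m + 1)) :=
  univ.filter (fun x => x ≠ i ∧ x - i ≤ j - i)

/-- The event `I^t_{i,j}`. -/
def evI (t : Fin r) (i j : Fin (m + 1)) : Set (Pt m r) := {ω | Ioc' i j ⊆ ω.1 t}

/-- The event `J^t_{i,j}`. -/
def evJ (t : Fin r) (i j : Fin (m + 1)) : Set (Pt m r) :=
  if i = j then {ω | ω.1 t = univ} else evI t i j

/-- The matrix of events `M^D`: the row of `i ∈ D` has the entries `J^{f(i)}_{i-1,j}`, the row of
`i ∈ [k-1] ∖ D` has the entries `I^{f(i)}_{i,j}`, and the last row has the entries `Ω`. -/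
def MD (D : Finset (Fin m)) (i j : Fin (m + 1)) : Set (Pt m r) :=
  Fin.lastCases (motive := fun _ => Set (Pt m r)) Set.univ (fun i' =>
    if i' ∈ D then {ω | ω ∈ evJ (ω.2 i') (i'.castSucc - 1) j}
    else {ω | ω ∈ evI (ω.2 i') i'.castSucc j}) i

/-- The `Pr`-determinant of a matrix of events. -/
noncomputable def Pdet (p : Fin (m + 1) → ℕ)
    (E : Fin (m + 1) → Fin (m + 1) → Set (Pt m r)) : ℚ :=
  ∑ π : Equiv.Perm (Fin (m + 1)), ((Equiv.Perm.sign π : ℤ) : ℚ) * Pr p (⋂ i, E i (π i))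

/-! ### Extraction of coefficients -/

theorem ww_eq (x : Fin (m + 1) → ℚ) (hx : ∀ l, 0 < x l) (S : Fin r → Finset (Fin (m + 1))) :
    ww (fun l => x l / (1 + x l)) S * ∏ l, (1 + x l) ^ r =
      ∏ l, x l ^ (univ.filter (fun t => l ∈ S t)).card := by
  unfold ww w1
  rw [Finset.prod_comm, ← Finset.prod_mul_distrib]
  apply Finset.prod_congr rfl
  intro l _
  have h1 : (1 + x l) ≠ 0 := by
    have := hx l
    positivity
  have h2 : ∀ t : Fin r, (if l ∈ S t then x l / (1 + x l) else 1 - x l / (1 + x l)) =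
      (if l ∈ S t then x l else 1) / (1 + x l) := by
    intro t
    by_cases h : l ∈ S t
    · rw [if_pos h, if_pos h]
    · rw [if_neg h, if_neg h]
      field_simp
      ring
  rw [Finset.prod_congr rfl (fun t _ => h2 t), Finset.prod_div_distrib, Finset.prod_const,
    card_univ, Fintype.card_fin, div_mul_cancel₀ _ (pow_ne_zero _ h1), Finset.prod_ite,
    Finset.prod_const, Finset.prod_const_one, mul_one]

theorem extract (c : (Fin r → Finset (Fin (m + 1))) → ℚ)
    (h : ∀ y : Fin (m + 1) → ℚ, ∑ S, ww y S * c S = 0) (p : Fin (m + 1) → ℕ) :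
    ∑ S ∈ calS m r p, c S = 0 := by
  classical
  set G : MvPolynomial (Fin (m + 1)) ℚ := ∑ S : Fin r → Finset (Fin (m + 1)),
    MvPolynomial.monomial (Finsupp.equivFunOnFinite.symm
      (fun l => (univ.filter (fun t => l ∈ S t)).card)) (c S) with hG
  have hG0 : G = 0 := by
    apply MvPolynomial.funext_set (fun _ => Set.Ioi (0 : ℚ)) (fun _ => Set.Ioi_infinite 0)
    intro x hx
    have hx' : ∀ l, 0 < x l := fun l => hx l (Set.mem_univ l)
    rw [hG, map_sum, map_zero]
    have h1 : ∀ S : Fin r → Finset (Fin (m + 1)), MvPolynomial.eval x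
        (MvPolynomial.monomial (Finsupp.equivFunOnFinite.symm
        (fun l => (univ.filter (fun t => l ∈ S t)).card)) (c S)) =
        (ww (fun l => x l / (1 + x l)) S * c S) * ∏ l, (1 + x l) ^ r := by
      intro S
      rw [MvPolynomial.eval_monomial, Finsupp.prod_fintype _ _ (fun _ => pow_zero _)]
      have h2 := ww_eq x hx' S
      simp only [Finsupp.equivFunOnFinite_symm_apply_apply]
      rw [← h2]
      ring
    rw [Finset.sum_congr rfl (fun S _ => h1 S), ← Finset.sum_mul, h, zero_mul]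
  have h2 : MvPolynomial.coeff (Finsupp.equivFunOnFinite.symm p) G = 0 := by
    rw [hG0, MvPolynomial.coeff_zero]
  rw [hG, MvPolynomial.coeff_sum] at h2
  rw [← h2]
  unfold calS
  rw [Finset.sum_filter]
  apply Finset.sum_congr rfl
  intro S _
  rw [MvPolynomial.coeff_monomial]
  by_cases h3 : ∀ i, (univ.filter (fun t => i ∈ S t)).card = p i
  · rw [if_pos h3, if_pos]
    congr 1
    funext i
    exact h3 i
  · rw [if_neg h3, if_neg]
    intro h4
    apply h3
    intro i
    have := congrFun (Finsupp.equivFunOnFinite.symm.injective h4) i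
    exact this

open Classical in
/-- For every surjection `f`, the sum of the determinants over `𝒮_{p,r}`. -/
theorem sum_det_calS (hm : 0 < m) (hr : 0 < r) (f : Fin m → Fin r)
    (hf : Function.Surjective f) (D : Finset (Fin m)) (p : Fin (m + 1) → ℕ) :
    ∑ S ∈ calS m r p, (MDmat ℚ S f D).det =
      (((calM m r p).filter (fun S => Fin.last m ∉ S ⟨0, hr⟩ ∧
        ∀ i ∈ D, i.castSucc ∈ S ⟨0, hr⟩)).card : ℚ) := by
  have h := extract (r := r) (m := m)
    (fun S => (MDmat ℚ S f D).det - (if Good ⟨0, hr⟩ D S then 1 else 0)) (by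
      intro y
      simp only [mul_sub]
      rw [Finset.sum_sub_distrib, sum_det hm y f hf D, sum_good y ⟨0, hr⟩ D, sub_self]) p
  rw [Finset.sum_sub_distrib, sub_eq_zero] at h
  rw [h, Finset.card_filter, Nat.cast_sum]
  unfold calM
  rw [Finset.sum_filter]
  apply Finset.sum_congr rfl
  intro S _
  unfold Good
  by_cases h1 : ∀ t, S t ≠ univ
  · rw [if_pos h1]
    by_cases h2 : Fin.last m ∉ S ⟨0, hr⟩ ∧ ∀ i ∈ D, i.castSucc ∈ S ⟨0, hr⟩
    · rw [if_pos ⟨h1, h2⟩, if_pos h2]
      simp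
    · rw [if_neg (fun h3 => h2 h3.2), if_neg h2]
      simp
  · rw [if_neg h1, if_neg (fun h3 => h1 h3.1)]

/-! ### The determinant of events -/

theorem exists_surj (hr : 0 < r) (hrm : r ≤ m) :
    ∃ f : Fin m → Fin r, Function.Surjective f := by
  refine ⟨fun i => ⟨min i.1 (r - 1), by omega⟩, fun t => ⟨⟨t.1, by omega⟩, ?_⟩⟩
  apply Fin.ext
  have := t.2
  simp only
  omega

open Classical in
theorem mem_MD (D : Finset (Fin m)) (ω : Pt m r) (i j : Fin (m + 1)) :
    (if ω ∈ MD D i j then (1 : ℚ) else 0) = MDmat ℚ ω.1 ω.2 D i j := by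
  unfold MD
  induction i using Fin.lastCases with
  | last =>
    rw [MDmat_last, Fin.lastCases_last, if_pos (Set.mem_univ _)]
  | cast i =>
    rw [MDmat_row, Fin.lastCases_castSucc]
    by_cases hi : i ∈ D
    · rw [if_pos hi, if_pos hi]
      have key : ω ∈ evJ (ω.2 i) (i.castSucc - 1) j ↔
          insert i.castSucc (cyc i.castSucc j) ⊆ ω.1 (ω.2 i) := by
        unfold evJ
        by_cases h : i.castSucc - 1 = j
        · rw [if_pos h, ← h, cyc_full, insert_erase (mem_univ _), univ_subset_iff]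
          rfl
        · rw [if_neg h, ← cyc_pred _ _ h]
          rfl
      by_cases h : ω ∈ evJ (ω.2 i) (i.castSucc - 1) j
      · rw [if_pos (key.1 h)]
        exact if_pos h
      · rw [if_neg (fun h' => h (key.2 h'))]
        exact if_neg h
    · rw [if_neg hi, if_neg hi]
      have key : ω ∈ evI (ω.2 i) i.castSucc j ↔ cyc i.castSucc j ⊆ ω.1 (ω.2 i) := Iff.rfl
      by_cases h : ω ∈ evI (ω.2 i) i.castSucc j
      · rw [if_pos (key.1 h)]
        exact if_pos h
      · rw [if_neg (fun h' => h (key.2 h'))]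
        exact if_neg h

theorem Pdet_eq (p : Fin (m + 1) → ℕ) (D : Finset (Fin m)) :
    Pdet (r := r) p (MD D) =
      (∑ ω ∈ Om (r := r) p, (MDmat ℚ ω.1 ω.2 D).det) / ((Om (r := r) p).card : ℚ) := by
  classical
  unfold Pdet Pr
  rw [Finset.sum_div]
  simp only [det_rows, Finset.sum_div]
  rw [Finset.sum_comm]
  apply Finset.sum_congr rfl
  intro π _
  rw [← mul_div_assoc]
  rw [← Finset.sum_div]
  congr 1
  rw [Finset.card_filter, Nat.cast_sum, Finset.mul_sum]
  apply Finset.sum_congr rfl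
  intro ω _
  congr 1
  rw [← Finset.prod_congr rfl (fun i _ => mem_MD D ω i (π i))]
  by_cases h : ω ∈ ⋂ i, MD D i (π i)
  · rw [if_pos h, Finset.prod_eq_one]
    · simp
    · intro i _
      rw [Set.mem_iInter] at h
      exact if_pos (h i)
  · rw [if_neg h]
    rw [Set.mem_iInter, not_forall] at h
    obtain ⟨i, hi⟩ := h
    rw [Finset.prod_eq_zero (mem_univ i) (if_neg hi)]
    simp

open Classical in
/-- **MP_02f487_co, Q1 (affirmative answer).** For all `k ≥ 2`, `1 ≤ r < k`, all `p` with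
`𝓜_{p,r} ≠ ∅` and all `D ⊆ [k-1]`,
`Pdet(M^D) = (|𝓜| / |𝒮|) · Pr(k ∉ S_1, D ⊆ S_1 | S ∈ 𝓜)`. -/
theorem result (m r : ℕ) (hr : 0 < r) (hrk : r < m + 1) (p : Fin (m + 1) → ℕ)
    (hM : (calM m r p).Nonempty) (D : Finset (Fin m)) :
    Pdet (r := r) p (MD D) = (((calM m r p).card : ℚ) / ((calS m r p).card : ℚ)) *
      ((((calM m r p).filter (fun S => Fin.last m ∉ S ⟨0, hr⟩ ∧
        ∀ i ∈ D, i.castSucc ∈ S ⟨0, hr⟩)).card : ℚ) / ((calM m r p).card : ℚ)) := by
  have hMc : ((calM m r p).card : ℚ) ≠ 0 := by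
    rw [Nat.cast_ne_zero]
    exact (Finset.card_pos.2 hM).ne'
  have hSne : (calS m r p).Nonempty := hM.mono (Finset.filter_subset _ _)
  have hSc : ((calS m r p).card : ℚ) ≠ 0 := by
    rw [Nat.cast_ne_zero]
    exact (Finset.card_pos.2 hSne).ne'
  set F : Finset (Fin m → Fin r) := univ.filter (fun f => Function.Surjective f) with hF
  have hFne : F.Nonempty := by
    obtain ⟨f, hf⟩ := exists_surj hr (by omega : r ≤ m)
    exact ⟨f, by rw [hF, mem_filter]; exact ⟨mem_univ _, hf⟩⟩
  have hFc : (F.card : ℚ) ≠ 0 := by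
    rw [Nat.cast_ne_zero]
    exact (Finset.card_pos.2 hFne).ne'
  have hOm : Om (r := r) p = calS m r p ×ˢ F := by
    unfold Om
    rfl
  rw [Pdet_eq, hOm, Finset.sum_product_right, Finset.card_product, Nat.cast_mul]
  have h1 : ∀ f ∈ F, ∑ S ∈ calS m r p, (MDmat ℚ (S, f).1 (S, f).2 D).det =
      (((calM m r p).filter (fun S => Fin.last m ∉ S ⟨0, hr⟩ ∧
        ∀ i ∈ D, i.castSucc ∈ S ⟨0, hr⟩)).card : ℚ) := by
    intro f hf
    rw [hF, mem_filter] at hf
    exact sum_det_calS (by omega) hr f hf.2 D p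
  rw [Finset.sum_congr rfl h1, Finset.sum_const, nsmul_eq_mul]
  field_simp

end Pool.Agent.Results.MP_02f487_co.DeterminantOfEvents
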